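import Pool.Agent.Helper16.AZ.Stmts

/-!
# Module FUM: the mean square of a sum over a block of primes

`FUR` for the block `PB 1 i`, with the primes dividing a vector counted by `CNT` and the high
frequencies bounded by `TLR`.
-/

open Finset Filter MeasureTheory Topology
open scoped ComplexConjugate InnerProductSpace

namespace Pool.Agent.Helper16.AZ

open Pool.Agent.Helper16.MD (MS PB Am RW Rich)

/-- the count of the primes, real form -/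
theorem fum_num (i m c : ℕ) (hi : 1 ≤ i) (hr : 2 ^ i ≤ 4 * i * c) :
    2 * ((((i + 1 + m) / i : ℕ) : ℝ) * c) ≤ 8 * ((i : ℝ) + 1 + m) / 2 ^ i * (c : ℝ) ^ 2 := by
  have hi0 : (0 : ℝ) < i := by exact_mod_cast hi
  have h1 : (((i + 1 + m) / i : ℕ) : ℝ) ≤ ((i : ℝ) + 1 + m) / i := by
    have h := @Nat.cast_div_le ℝ _ _ _ (i + 1 + m) i
    refine h.trans (le_of_eq ?_)
    push_cast
    ring
  have h2 : (2 : ℝ) ^ i ≤ 4 * i * c := by exact_mod_cast hr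
  have h3 : (0 : ℝ) < 2 ^ i := by positivity
  have h4 : (1 : ℝ) / i ≤ 4 * c / 2 ^ i := by
    rw [div_le_div_iff₀ hi0 h3]
    linarith
  have hc : (0 : ℝ) ≤ c := Nat.cast_nonneg c
  have hm : (0 : ℝ) ≤ (i : ℝ) + 1 + m := by positivity
  calc 2 * ((((i + 1 + m) / i : ℕ) : ℝ) * c)
      ≤ 2 * ((((i : ℝ) + 1 + m) / i) * c) := by
        have := mul_le_mul_of_nonneg_right h1 hc
        linarith
    _ = 2 * c * ((i : ℝ) + 1 + m) * (1 / i) := by ring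
    _ ≤ 2 * c * ((i : ℝ) + 1 + m) * (4 * c / 2 ^ i) :=
        mul_le_mul_of_nonneg_left h4 (by positivity)
    _ = 8 * ((i : ℝ) + 1 + m) / 2 ^ i * (c : ℝ) ^ 2 := by ring

theorem st_FUM (hFUR : ST_FUR) (hCNT : ST_CNT) (hTLR : ST_TLR) : ST_FUM := by
  intro r i m x F δ hi hrich hF hδ hmod
  have hpos : ∀ p ∈ PB 1 i, 1 ≤ p := by
    intro p hp
    have h1 := (Finset.mem_filter.1 hp).2.1
    exact h1.one_lt.le
  have hτ : (0 : ℝ) ≤ r * δ ^ 2 := by positivity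
  have hcnt : ∀ Z : Fin r → ℤ, Z ≠ 0 → ∀ S ⊆ PB 1 i,
      (∀ p ∈ S, ∃ Y : Fin r → ℤ, Z = (p : ℤ) • Y ∧ ∀ j, |Y j| ≤ ((2 ^ m : ℕ) : ℤ)) →
      S.card ≤ (i + 1 + m) / i := by
    intro Z hZ S hS h
    rw [Nat.le_div_iff_mul_le (by omega)]
    have := hCNT r i m Z hZ S hS h
    rw [mul_comm]
    exact this
  have htl : ∀ p ∈ PB 1 i, ∀ A : Finset (Fin r → ℤ),
      (∀ X ∈ A, ∃ j, ((2 ^ m : ℕ) : ℤ) < |X j|) → ∑ X ∈ A, ‖fc (F p) X‖ ^ 2 ≤ r * δ ^ 2 := by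
    intro p hp A hA
    refine hTLR r (F p) (2 ^ m) δ (hF p hp).1 Nat.one_le_two_pow hδ ?_ A hA
    intro θ s hs
    refine hmod p hp θ s ?_
    have h2 : (((2 ^ m : ℕ) : ℕ) : ℝ) = (2 : ℝ) ^ m := by push_cast; ring
    rw [h2] at hs
    exact hs
  have h := hFUR r x (PB 1 i) F (2 ^ m) ((i + 1 + m) / i) (r * δ ^ 2) hpos hF hτ hcnt htl
  refine h.trans ?_
  have h5 := fum_num i m (PB 1 i).card hi hrich
  nlinarith [h5]

end Pool.Agent.Helper16.AZ
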